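import Pool.Agent.SKP.Asm

/-!
# MP_001fdd_co: Sierksma's bound in the plane up to a subexponential factor
-/

set_option autoImplicit false

namespace Pool.Agent.Results.MP_001fdd_co.PlaneSubexponential

/-- There is a constant `C > 0` such that for all `m ≥ 2` every set `S` of `3 (m - 1) + 1` points
of the plane has at least `((m - 1)!) ^ 2 / exp (C m ^ (11 / 12) log m)` partitions into `m` parts
whose convex hulls have a common point. -/
theorem result : ∃ C : ℝ, 0 < C ∧ ∀ m : ℕ, 2 ≤ m →
    ∀ S : Finset (EuclideanSpace ℝ (Fin 2)), S.card = 3 * (m - 1) + 1 →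
    ((m - 1).factorial : ℝ) ^ 2 ≤
      Real.exp (C * (m : ℝ) ^ (11 / 12 : ℝ) * Real.log m) *
      ({P : Finpartition S | P.parts.card = m ∧
        ∃ x : EuclideanSpace ℝ (Fin 2), ∀ p ∈ P.parts,
          x ∈ convexHull ℝ (p : Set (EuclideanSpace ℝ (Fin 2)))}.ncard : ℝ) :=
  Pool.Agent.SKP.asmMain

end Pool.Agent.Results.MP_001fdd_co.PlaneSubexponential
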