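import Pool.Agent.Tvb.MainA
import Pool.Agent.Tvo.MainO

/-!
# MP_001fdd_co: Sierksma's bound up to an exponential factor, number of parts a prime power
-/

set_option autoImplicit false

namespace Pool.Agent.Results.MP_001fdd_co.PrimePowers

/-- Let `m = p ^ k`, `p` prime, `k ≥ 1`, and let `C = 4` if `p = 2` and `C = 6 ⌊log₂ p⌋` otherwise.
Every set `S` of `(m - 1) (d + 1) + 1` points of `ℝ^d` has at least
`((m - 1)!) ^ d / C ^ ((m - 1) (d + 1))` partitions into `m` parts whose convex hulls have a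
common point. -/
theorem result (p k d m : ℕ) (hp : p.Prime) (hk : 1 ≤ k) (hm : m = p ^ k)
    (S : Finset (EuclideanSpace ℝ (Fin d))) (hS : S.card = (m - 1) * (d + 1) + 1) :
    ((m - 1).factorial) ^ d ≤ (if p = 2 then 4 else 6 * Nat.log 2 p) ^ ((m - 1) * (d + 1)) *
      {P : Finpartition S | P.parts.card = m ∧
        ∃ x : EuclideanSpace ℝ (Fin d), ∀ p ∈ P.parts,
          x ∈ convexHull ℝ (p : Set (EuclideanSpace ℝ (Fin d)))}.ncard := by
  subst hm
  by_cases h2 : p = 2
  · subst h2
    rw [if_pos rfl]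
    exact Tvb.mainA k d hk S hS
  · rw [if_neg h2]
    have : Fact p.Prime := ⟨hp⟩
    exact Tvo.mainO p k d h2 hk S hS

end Pool.Agent.Results.MP_001fdd_co.PrimePowers
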