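import Pool.Agent.Tvw.MainW

/-!
# MP_001fdd_co: Sierksma's bound up to an exponential factor, all numbers of parts and dimensions
-/

set_option autoImplicit false

namespace Pool.Agent.Results.MP_001fdd_co.UniformConstant

/-- Let `m ≥ 2`, `d ≥ 0` and let `κ` be the minimum of
`(d + 1)! vol (B ^ (d + 1)) / 2 = (d + 1)! π ^ ((d + 1) / 2) / (2 Γ ((d + 1) / 2 + 1))` and
`12 ^ (d + 1)`. Every set `S` of `(m - 1) (d + 1) + 1` points of `ℝ^d` has at least
`((m - 1)!) ^ d / ((e (m - 1)) ^ (d + 1) κ ^ (m - 1))` partitions into `m` parts whose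
convex hulls have a common point. -/
theorem result (m d : ℕ) (hm : 2 ≤ m) (S : Finset (EuclideanSpace ℝ (Fin d)))
    (hS : S.card = (m - 1) * (d + 1) + 1) :
    ((m - 1).factorial : ℝ) ^ d ≤ (Real.exp 1 * ((m : ℝ) - 1)) ^ (d + 1) *
      (min (((d + 1).factorial : ℝ) *
          (√Real.pi ^ (d + 1) / Real.Gamma (((d : ℝ) + 1) / 2 + 1)) / 2)
        ((12 : ℝ) ^ (d + 1))) ^ (m - 1) *
      ({P : Finpartition S | P.parts.card = m ∧
        ∃ x : EuclideanSpace ℝ (Fin d), ∀ p ∈ P.parts,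
          x ∈ convexHull ℝ (p : Set (EuclideanSpace ℝ (Fin d)))}.ncard : ℝ) := by
  obtain ⟨k, rfl⟩ : ∃ k, m = k + 1 := ⟨m - 1, by omega⟩
  have hk : 1 ≤ k := by omega
  have h1 : k + 1 - 1 = k := rfl
  have h2 : ((k + 1 : ℕ) : ℝ) - 1 = (k : ℝ) := by push_cast; ring
  have h3 := Tvw.mainW k d hk S hS
  unfold Tvv.k1 at h3
  rw [h2, h1]
  push_cast at h3
  exact h3

end Pool.Agent.Results.MP_001fdd_co.UniformConstant
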